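import Pool.Agent.W5h11.NGB.Circle

/-!
# Balanced bicliques in projective norm graphs

For finite fields `F ⊆ K` with `|F| = q` and `[K : F] = t - 1` the projective norm graph has the
`n = q^(t-1) (q - 1)` vertices `(X, a) ∈ K × Fˣ`, two different ones being adjacent if
`N (X + Y) = a b`; it has at least `n (q^(t-1) - 2) / 2 ≥ (1/2 - o(1)) n^(2 - 1/t)` edges.
(1) It contains no `K_{s,s}` with `s = 2^(t-2) + 1`.
(2) If `t ≥ 4` it contains no `K_{s,s+3}` with `s = 2^(t-2)`.
-/

set_option autoImplicit false

namespace Pool.Agent.W5h11.NGB.Result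

open Finset Pool.Agent.W5h11.NGB

/-- the projective norm graph of an extension `K` of `F` -/
def normGraph (F K : Type) [Field F] [Field K] [Algebra F K] : SimpleGraph (K × Fˣ) where
  Adj u v := u ≠ v ∧ Algebra.norm F (u.1 + v.1) = (u.2 : F) * (v.2 : F)
  symm := ⟨fun u v h => ⟨h.1.symm, by rw [add_comm, h.2, mul_comm]⟩⟩
  loopless := ⟨fun u h => h.1 rfl⟩

/-- a biclique in the norm graph gives norm equations -/
theorem eqs_of_biclique (F K : Type) [Field F] [Finite F] [Field K] [Finite K] [Algebra F K]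
    (m s r : ℕ) (hs : 0 < s) (hr : 0 < r) (hdeg : Module.finrank F K = m)
    (h : (completeBipartiteGraph (Fin s) (Fin r)).IsContained (normGraph F K)) :
    ∃ (φ : K →+* K) (C S : Finset K) (a b : K → K), C.card = s ∧ S.card = r ∧
      Eqs φ m C S a b := by
  classical
  obtain ⟨f⟩ := h
  let _ : Fintype F := Fintype.ofFinite F
  set x : Fin s → K × Fˣ := fun i => f (Sum.inl i) with hx
  set y : Fin r → K × Fˣ := fun j => f (Sum.inr j) with hy
  have hxi : Function.Injective x := fun i j hij => Sum.inl_injective (f.injective hij)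
  have hyi : Function.Injective y := fun i j hij => Sum.inr_injective (f.injective hij)
  have hadj : ∀ i j, (normGraph F K).Adj (x i) (y j) := fun i j =>
    f.toHom.map_adj (by simp)
  have hN : ∀ i j, Algebra.norm F ((x i).1 + (y j).1) = ((x i).2 : F) * ((y j).2 : F) :=
    fun i j => (hadj i j).2
  let i₀ : Fin s := ⟨0, hs⟩
  let j₀ : Fin r := ⟨0, hr⟩
  have hX : Function.Injective fun i => (x i).1 := by
    intro i k hik
    apply hxi
    have h1 := hN i j₀
    have h2 := hN k j₀
    simp only at hik
    rw [hik, h2] at h1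
    exact Prod.ext hik (Units.ext (mul_right_cancel₀ (y j₀).2.ne_zero h1).symm)
  have hY : Function.Injective fun j => (y j).1 := by
    intro i k hik
    apply hyi
    have h1 := hN i₀ i
    have h2 := hN i₀ k
    simp only at hik
    rw [hik, h2] at h1
    exact Prod.ext hik (Units.ext (mul_left_cancel₀ (x i₀).2.ne_zero h1).symm)
  -- the Frobenius endomorphism
  obtain ⟨φ, hφ⟩ : ∃ φ : K →+* K, ∀ x, φ x = x ^ Nat.card F :=
    ⟨(FiniteField.frobeniusAlgHom F K).toRingHom, fun x => by
      show x ^ Fintype.card F = x ^ Nat.card F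
      rw [Nat.card_eq_fintype_card]⟩
  have hit : ∀ (j : ℕ) (x : K), φ^[j] x = x ^ (Nat.card F ^ j) := by
    intro j x
    induction j with
    | zero => simp
    | succ j ih => rw [Function.iterate_succ_apply', ih, hφ, ← pow_mul, ← pow_succ]
  have hnorm : ∀ x : K, algebraMap F K (Algebra.norm F x) = ∏ j ∈ range m, φ^[j] x := by
    intro x
    rw [FiniteField.algebraMap_norm_eq_prod_pow, hdeg]
    exact Finset.prod_congr rfl fun j _ => (hit j x).symm
  have inj : Function.Injective (algebraMap F K) := (algebraMap F K).injective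
  -- the labels as functions of the points
  have hb : ∀ j, Algebra.norm F ((y j).1 + (x i₀).1) / ((x i₀).2 : F) = ((y j).2 : F) := by
    intro j
    rw [add_comm, hN, mul_div_cancel_left₀ _ (x i₀).2.ne_zero]
  have ha : ∀ i, Algebra.norm F ((x i).1 + (y j₀).1) / ((y j₀).2 : F) = ((x i).2 : F) := by
    intro i
    rw [hN, mul_div_cancel_right₀ _ (y j₀).2.ne_zero]
  refine ⟨φ, Finset.univ.image fun i => (x i).1, Finset.univ.image fun j => (y j).1,
    fun c => algebraMap F K (Algebra.norm F (c + (y j₀).1) / ((y j₀).2 : F)),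
    fun s => algebraMap F K (Algebra.norm F (s + (x i₀).1) / ((x i₀).2 : F)), ?_, ?_, ?_⟩
  · rw [Finset.card_image_of_injective _ hX, Finset.card_univ, Fintype.card_fin]
  · rw [Finset.card_image_of_injective _ hY, Finset.card_univ, Fintype.card_fin]
  · refine ⟨?_, ?_, ?_⟩
    · intro c hc
      obtain ⟨i, _, rfl⟩ := Finset.mem_image.1 hc
      rw [ha]
      exact (map_ne_zero_iff _ inj).2 (x i).2.ne_zero
    · intro c hc
      obtain ⟨i, _, rfl⟩ := Finset.mem_image.1 hc
      rw [hb]
      exact (map_ne_zero_iff _ inj).2 (y i).2.ne_zero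
    · intro s hs c hc
      obtain ⟨j, _, rfl⟩ := Finset.mem_image.1 hs
      obtain ⟨i, _, rfl⟩ := Finset.mem_image.1 hc
      rw [ha, hb, ← hnorm, add_comm, hN, map_mul]

/-- the number of edges -/
theorem edges (F K : Type) [Field F] [Finite F] [Field K] [Finite K] [Algebra F K] :
    (Nat.card K - 2) * Nat.card (K × Fˣ) ≤ 2 * Nat.card (normGraph F K).edgeSet := by
  classical
  let _ : Fintype F := Fintype.ofFinite F
  let _ : Fintype K := Fintype.ofFinite K
  have hdeg : ∀ v : K × Fˣ, Nat.card K - 2 ≤ (normGraph F K).degree v := by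
    intro v
    have hne : ∀ Y : K, Y ≠ -v.1 → Algebra.norm F (v.1 + Y) ≠ 0 := by
      intro Y hY
      rw [Algebra.norm_ne_zero_iff]
      intro h0
      exact hY (eq_neg_of_add_eq_zero_right h0)
    let g : K → K × Fˣ := fun Y => if hY : Y ≠ -v.1 then
      (Y, Units.mk0 (Algebra.norm F (v.1 + Y)) (hne Y hY) / v.2) else (Y, v.2)
    have hg1 : ∀ Y, (g Y).1 = Y := by
      intro Y
      simp only [g]
      split_ifs <;> rfl
    have hginj : Function.Injective g := fun a b hab => by rw [← hg1 a, ← hg1 b, hab]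
    have hsub : (Finset.univ \ {-v.1, v.1}).image g ⊆ (normGraph F K).neighborFinset v := by
      intro w hw
      obtain ⟨Y, hY, rfl⟩ := Finset.mem_image.1 hw
      rw [Finset.mem_sdiff, Finset.mem_insert, Finset.mem_singleton, not_or] at hY
      obtain ⟨_, hY1, hY2⟩ := hY
      rw [SimpleGraph.mem_neighborFinset]
      refine ⟨?_, ?_⟩
      · intro h0
        apply hY2
        rw [h0, hg1]
      · simp only [g]
        rw [dif_pos hY1]
        simp only [Units.val_div_eq_div_val, Units.val_mk0]
        rw [mul_div_cancel₀ _ v.2.ne_zero]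
    rw [← SimpleGraph.card_neighborFinset_eq_degree]
    refine le_trans ?_ (Finset.card_le_card hsub)
    rw [Finset.card_image_of_injective _ hginj]
    have h1 := Finset.le_card_sdiff ({-v.1, v.1} : Finset K) Finset.univ
    have h2 : ({-v.1, v.1} : Finset K).card ≤ 2 := Finset.card_le_two
    rw [Finset.card_univ] at h1
    rw [Nat.card_eq_fintype_card]
    omega
  rw [Nat.card_eq_fintype_card (α := (normGraph F K).edgeSet), ← SimpleGraph.edgeFinset_card,
    ← SimpleGraph.sum_degrees_eq_twice_card_edges, Nat.card_eq_fintype_card (α := K × Fˣ)]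
  calc (Nat.card K - 2) * Fintype.card (K × Fˣ) = ∑ _v : K × Fˣ, (Nat.card K - 2) := by
        rw [Finset.sum_const, Finset.card_univ, smul_eq_mul, mul_comm]
    _ ≤ ∑ v : K × Fˣ, (normGraph F K).degree v := Finset.sum_le_sum fun v _ => hdeg v

theorem result : ∀ (F K : Type) [Field F] [Finite F] [Field K] [Finite K] [Algebra F K] (t : ℕ),
    2 ≤ t → Module.finrank F K = t - 1 →
    -- the numbers of vertices and edges
    Nat.card (K × Fˣ) = Nat.card F ^ (t - 1) * (Nat.card F - 1) ∧
    (Nat.card F ^ (t - 1) - 2) * Nat.card (K × Fˣ) ≤ 2 * Nat.card (normGraph F K).edgeSet ∧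
    -- (1) balanced bicliques
    (completeBipartiteGraph (Fin (2 ^ (t - 2) + 1)) (Fin (2 ^ (t - 2) + 1))).Free
      (normGraph F K) ∧
    -- (2) almost balanced bicliques
    (4 ≤ t → (completeBipartiteGraph (Fin (2 ^ (t - 2))) (Fin (2 ^ (t - 2) + 3))).Free
      (normGraph F K)) := by
  classical
  intro F K _ _ _ _ _ t ht hdeg
  have hK : Nat.card K = Nat.card F ^ (t - 1) := by
    rw [← hdeg]
    exact Module.natCard_eq_pow_finrank
  have ht2 : t - 1 - 1 = t - 2 := by omega
  refine ⟨?_, ?_, ?_, ?_⟩
  · let _ : Fintype F := Fintype.ofFinite F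
    rw [Nat.card_prod, hK]
    congr 1
    rw [Nat.card_eq_fintype_card, Fintype.card_units, Nat.card_eq_fintype_card]
  · rw [← hK]
    exact edges F K
  · intro hcon
    obtain ⟨φ, C, S, a, b, hC, hS, H⟩ := eqs_of_biclique F K (t - 1) _ _ (by positivity)
      (by positivity) hdeg hcon
    exact H.balanced (by omega) (by rw [hC, ht2]; omega) (by rw [hS, ht2]; omega)
  · intro ht4 hcon
    obtain ⟨φ, C, S, a, b, hC, hS, H⟩ := eqs_of_biclique F K (t - 1) _ _ (by positivity)
      (by positivity) hdeg hcon
    exact H.unbalanced (by omega) (by rw [hC, ht2]) (by rw [hS, ht2])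

end Pool.Agent.W5h11.NGB.Result
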