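import Pool.Agent.W5h11.NGB.Unbal

/-!
# Large bicliques in norm graphs: points with fixed cross ratios
-/

set_option autoImplicit false

namespace Pool.Agent.W5h11.NGB

open Finset Polynomial

variable {K : Type*} [Field K]

theorem Eqs.circle {φ : K →+* K} {m : ℕ} {C S : Finset K} {a b : K → K}
    (H : Eqs φ m C S a b) (hm : 0 < m) {x y z : K} (hz : z ∈ S)
    (hxy : x ≠ y) (hxz : x ≠ z) (hyz : y ≠ z)
    (hcr : ∀ s ∈ S, s ≠ z →
      φ ((s - x) * (y - z) / ((s - z) * (y - x))) = (s - x) * (y - z) / ((s - z) * (y - x)))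
    (hS : m + 2 ≤ S.card) : C.card ≤ m := by
  classical
  have hxz' : x - z ≠ 0 := sub_ne_zero.2 hxz
  have hyx' : y - x ≠ 0 := sub_ne_zero.2 hxy.symm
  have hyz' : y - z ≠ 0 := sub_ne_zero.2 hyz
  set e : K := (y - x) / (y - z) with he
  have he0 : e ≠ 0 := div_ne_zero hyx' hyz'
  set τ : K → K := fun s => (s - x) * (y - z) / ((s - z) * (y - x)) with hτ
  have hτe : ∀ s, s ≠ z → τ s * e * (s - z) = s - x := by
    intro s hs
    have : s - z ≠ 0 := sub_ne_zero.2 hs
    rw [hτ, he]
    field_simp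
  have hfix : ∀ j : ℕ, ∀ s ∈ S, s ≠ z → φ^[j] (τ s) = τ s := by
    intro j s hs hsz
    exact Function.iterate_fixed (hcr s hs hsz) j
  have hinj : Set.InjOn τ (S.erase z) := by
    intro s hs t ht hst
    have hs' := Finset.mem_erase.1 hs
    have ht' := Finset.mem_erase.1 ht
    have h1 := hτe s hs'.1
    have h2 := hτe t ht'.1
    have h3 : s - z ≠ 0 := sub_ne_zero.2 hs'.1
    have h4 : t - z ≠ 0 := sub_ne_zero.2 ht'.1
    have hst' : τ s = τ t := hst
    rw [hst'] at h1
    have h5 : (x - z) * (s - t) = 0 := by linear_combination (s - z) * h2 - (t - z) * h1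
    exact sub_eq_zero.1 ((mul_eq_zero.1 h5).resolve_left hxz')
  -- the polynomials
  set p : K → K[X] := fun c => ∏ j ∈ range m,
    (Polynomial.C (φ^[j] (x + c)) - X * Polynomial.C (φ^[j] (e * (z + c)))) with hp
  have hpe : ∀ c t, (p c).eval t = ∏ j ∈ range m, (φ^[j] (x + c) - t * φ^[j] (e * (z + c))) := by
    intro c t
    simp [hp, Polynomial.eval_prod]
  have hpd : ∀ c, (p c).natDegree ≤ m := by
    intro c
    refine (Polynomial.natDegree_prod_le _ _).trans ?_
    refine (Finset.sum_le_card_nsmul _ _ 1 fun j _ => ?_).trans (by simp)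
    refine (Polynomial.natDegree_sub_le _ _).trans (max_le (by simp) ?_)
    refine Polynomial.natDegree_mul_le.trans ?_
    have := Polynomial.natDegree_X_le (R := K)
    simp only [Polynomial.natDegree_C]
    omega
  have hval : ∀ c ∈ C, ∀ s ∈ S.erase z, (p c).eval (τ s) =
      a c * (b s * ∏ j ∈ range m, φ^[j] (1 - τ s * e)) := by
    intro c hc s hs
    obtain ⟨hsz, hs⟩ := Finset.mem_erase.1 hs
    have h0 : s - z ≠ 0 := sub_ne_zero.2 hsz
    have h1 : (s + c) * (1 - τ s * e) = (x + c) - τ s * (e * (z + c)) := by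
      apply mul_right_cancel₀ h0
      linear_combination (-(s + c) + (z + c)) * hτe s hsz
    rw [hpe, ← mul_assoc, ← H.h s hs c hc, ← Finset.prod_mul_distrib]
    refine Finset.prod_congr rfl fun j _ => ?_
    rw [← iterate_map_mul, h1, iterate_map_sub, iterate_map_mul φ j (τ s), hfix j s hs hsz]
  have hpq : ∀ c ∈ C, ∀ d ∈ C,
      Polynomial.C (a d) * p c - Polynomial.C (a c) * p d = 0 := by
    intro c hc d hd
    refine Polynomial.eq_zero_of_degree_lt_of_eval_index_eq_zero (S.erase z) hinj ?_ ?_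
    · refine lt_of_le_of_lt Polynomial.degree_le_natDegree ?_
      have h1 : (Polynomial.C (a d) * p c - Polynomial.C (a c) * p d).natDegree ≤ m :=
        (Polynomial.natDegree_sub_le _ _).trans (max_le
          ((Polynomial.natDegree_C_mul_le _ _).trans (hpd c))
          ((Polynomial.natDegree_C_mul_le _ _).trans (hpd d)))
      have h2 : m < (S.erase z).card := by
        rw [Finset.card_erase_of_mem hz]
        omega
      exact_mod_cast lt_of_le_of_lt h1 h2
    · intro s hs
      rw [Polynomial.eval_sub, Polynomial.eval_mul, Polynomial.eval_mul, Polynomial.eval_C,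
        Polynomial.eval_C, hval c hc s hs, hval d hd s hs]
      ring
  have hzc : ∀ c ∈ C, z + c ≠ 0 := fun c hc => by simpa using H.ne hm hz hc
  set ζ : K → K := fun c => (x + c) / (e * (z + c)) with hζ
  have hroot : ∀ c ∈ C, ∀ d ∈ C, ∃ j ∈ range m, ζ c = φ^[j] (ζ d) := by
    intro c hc d hd
    have h1 : (p c).eval (ζ c) = 0 := by
      rw [hpe]
      apply Finset.prod_eq_zero (Finset.mem_range.2 hm)
      have := hzc c hc
      simp only [Function.iterate_zero, id_eq, hζ]
      field_simp
      ring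
    have h2 : (p d).eval (ζ c) = 0 := by
      have h3 := congrArg (Polynomial.eval (ζ c)) (hpq c hc d hd)
      rw [Polynomial.eval_sub, Polynomial.eval_mul, Polynomial.eval_mul, Polynomial.eval_C,
        Polynomial.eval_C, h1, Polynomial.eval_zero] at h3
      have h4 : a c * (p d).eval (ζ c) = 0 := by linear_combination -h3
      exact (mul_eq_zero.1 h4).resolve_left (H.ha c hc)
    rw [hpe, Finset.prod_eq_zero_iff] at h2
    obtain ⟨j, hj, h3⟩ := h2
    refine ⟨j, hj, ?_⟩
    have h4 : φ^[j] (e * (z + d)) ≠ 0 := by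
      intro h0
      exact mul_ne_zero he0 (hzc d hd) ((φ.injective.iterate j) (by rw [h0, iterate_map_zero]))
    have h5 : φ^[j] (ζ d) * φ^[j] (e * (z + d)) = φ^[j] (x + d) := by
      rw [← iterate_map_mul, hζ]
      congr 1
      have := hzc d hd
      field_simp
    apply mul_right_cancel₀ h4
    rw [h5]
    linear_combination -h3
  have hζinj : ∀ c ∈ C, ∀ d ∈ C, ζ c = ζ d → c = d := by
    intro c hc d hd h
    have h1 := hzc c hc
    have h2 := hzc d hd
    have h3 : (x + c) * (z + d) = (x + d) * (z + c) := by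
      simp only [hζ] at h
      rw [div_eq_div_iff (mul_ne_zero he0 h1) (mul_ne_zero he0 h2)] at h
      apply mul_left_cancel₀ he0
      linear_combination h
    have h4 : (x - z) * (d - c) = 0 := by linear_combination h3
    exact (sub_eq_zero.1 ((mul_eq_zero.1 h4).resolve_left hxz')).symm
  by_cases hne : C.Nonempty
  · obtain ⟨d, hd⟩ := hne
    choose! f hf1 hf2 using fun c hc => hroot c hc d hd
    have := Finset.card_le_card_of_injOn f hf1 (fun c hc c' hc' h =>
      hζinj c hc c' hc' (by rw [hf2 c hc, hf2 c' hc', h]))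
    simpa using this
  · rw [Finset.not_nonempty_iff_eq_empty.1 hne]
    simp

/-- the unbalanced case -/
theorem Eqs.unbalanced {φ : K →+* K} {m : ℕ} {C S : Finset K} {a b : K → K}
    (H : Eqs φ m C S a b) (hm : 3 ≤ m) (hC : 2 ^ (m - 1) ≤ C.card)
    (hS : 2 ^ (m - 1) + 3 ≤ S.card) : False := by
  classical
  obtain ⟨C', hC', hcard⟩ := Finset.exists_subset_card_eq hC
  have H' := H.mono hC' (Finset.Subset.refl S)
  have hpow : m < 2 ^ (m - 1) := by
    obtain ⟨k, rfl⟩ : ∃ k, m = k + 3 := ⟨m - 3, by omega⟩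
    have : k + 1 ≤ 2 ^ k := Nat.lt_two_pow_self
    calc k + 3 < 4 * (k + 1) := by omega
      _ ≤ 4 * 2 ^ k := by omega
      _ = 2 ^ (k + 3 - 1) := by rw [show k + 3 - 1 = k + 2 by omega, pow_add]; ring
  obtain ⟨x, hx, y, hy, z, hz, hxy, hxz, hyz⟩ := Finset.two_lt_card.1 (show 2 < S.card by omega)
  have := H'.circle (by omega) hz hxy hxz hyz ?_ (by omega)
  · omega
  · intro s hs hsz
    by_cases hsx : s = x
    · subst hsx; simp
    by_cases hsy : s = y
    · subst hsy
      have h1 : s - z ≠ 0 := sub_ne_zero.2 hyz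
      have h2 : s - x ≠ 0 := sub_ne_zero.2 hxy.symm
      have : (s - x) * (s - z) / ((s - z) * (s - x)) = 1 := by field_simp
      rw [this, map_one]
    have h1 := H'.cross (by omega) hcard.symm (by omega) ![x, s, y, z] (by
      intro i j hij
      fin_cases i <;> fin_cases j <;> simp_all [eq_comm]) (by
      intro i
      fin_cases i <;> simp [hx, hy, hz, hs])
    simp only [Matrix.cons_val_zero, Matrix.cons_val_one, Matrix.cons_val] at h1
    have h2 : s - z ≠ 0 := sub_ne_zero.2 hsz
    have h3 : y - x ≠ 0 := sub_ne_zero.2 hxy.symm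
    have h4 : φ s - φ z ≠ 0 := sub_ne_zero.2 (φ.injective.ne hsz)
    have h5 : φ y - φ x ≠ 0 := sub_ne_zero.2 (φ.injective.ne hxy.symm)
    rw [map_div₀, map_mul, map_mul, map_sub, map_sub, map_sub, map_sub,
      div_eq_div_iff (mul_ne_zero h4 h5) (mul_ne_zero h2 h3)]
    linear_combination h1

end Pool.Agent.W5h11.NGB
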