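import Mathlib

/-!
# Large bicliques in norm graphs: the linear algebra
-/

set_option autoImplicit false

namespace Pool.Agent.W5h11.NGB

open Finset Polynomial

variable {K : Type*} [Field K]

/-- a homogeneous linear system with more unknowns than equations -/
theorem exists_ker {ι υ : Type*} (I : Finset ι) (U : Finset υ) (h : U.card < I.card)
    (M : υ → ι → K) :
    ∃ κ : ι → K, (∃ i ∈ I, κ i ≠ 0) ∧ ∀ u ∈ U, ∑ i ∈ I, κ i * M u i = 0 := by
  classical
  let L : (I → K) →ₗ[K] (U → K) :=
    { toFun := fun x u => ∑ i : I, x i * M u i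
      map_add' := by
        intro x y; funext u
        simp only [Pi.add_apply, add_mul, Finset.sum_add_distrib]
      map_smul' := by
        intro r x; funext u
        simp only [Pi.smul_apply, smul_eq_mul, RingHom.id_apply, Finset.mul_sum, mul_assoc] }
  have hL : LinearMap.ker L ≠ ⊥ := by
    apply LinearMap.ker_ne_bot_of_finrank_lt
    simpa using h
  obtain ⟨x, hx, hx0⟩ := Submodule.exists_mem_ne_zero_of_ne_bot hL
  obtain ⟨i, hi⟩ := Function.ne_iff.1 hx0
  refine ⟨fun j => if hj : j ∈ I then x ⟨j, hj⟩ else 0, ⟨i, i.2, ?_⟩, ?_⟩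
  · simpa using hi
  · intro u hu
    have h1 := congrFun (LinearMap.mem_ker.1 hx) ⟨u, hu⟩
    simp only [L, LinearMap.coe_mk, AddHom.coe_mk, Pi.zero_apply] at h1
    rw [← h1, ← Finset.sum_coe_sort I]
    refine Finset.sum_congr rfl fun j _ => ?_
    simp

/-- Cauchy matrices are nonsingular -/
theorem cauchy_indep {C S : Finset K} {y x : K → K} (hy : Set.InjOn y C) (hx : Set.InjOn x S)
    (hcard : C.card ≤ S.card) (hne : ∀ s ∈ S, ∀ c ∈ C, x s + y c ≠ 0) {κ : K → K}
    (h : ∀ s ∈ S, ∑ c ∈ C, κ c / (x s + y c) = 0) : ∀ c ∈ C, κ c = 0 := by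
  classical
  set P : K[X] := ∑ c ∈ C, Polynomial.C (κ c) * ∏ d ∈ C.erase c, (X + Polynomial.C (y d)) with hP
  intro c hc
  have hdeg : P.degree < (S.card : WithBot ℕ) := by
    refine lt_of_lt_of_le ?_ (show ((C.card : ℕ) : WithBot ℕ) ≤ (S.card : WithBot ℕ) by
      exact_mod_cast hcard)
    rw [hP]
    refine lt_of_le_of_lt (Polynomial.degree_sum_le _ _) ?_
    rw [Finset.sup_lt_iff (WithBot.bot_lt_coe _)]
    intro d hd
    refine lt_of_le_of_lt (Polynomial.degree_mul_le _ _) ?_
    have h1 : (∏ e ∈ C.erase d, (X + Polynomial.C (y e))).degree = ((C.card - 1 : ℕ) : WithBot ℕ) := by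
      rw [Polynomial.degree_prod]
      simp [Polynomial.degree_X_add_C, Finset.card_erase_of_mem hd]
    rw [h1]
    have h2 : 0 < C.card := Finset.card_pos.2 ⟨d, hd⟩
    calc (Polynomial.C (κ d)).degree + ((C.card - 1 : ℕ) : WithBot ℕ)
        ≤ 0 + ((C.card - 1 : ℕ) : WithBot ℕ) := by
          gcongr
          exact Polynomial.degree_C_le
      _ = ((C.card - 1 : ℕ) : WithBot ℕ) := by rw [zero_add]
      _ < (C.card : WithBot ℕ) := by
          exact_mod_cast Nat.sub_lt h2 one_pos
  have hzero : P = 0 := by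
    refine Polynomial.eq_zero_of_degree_lt_of_eval_index_eq_zero S hx hdeg ?_
    intro s hs
    have h1 : P.eval (x s) = (∏ d ∈ C, (x s + y d)) * ∑ c ∈ C, κ c / (x s + y c) := by
      rw [hP, Polynomial.eval_finsetSum, Finset.mul_sum]
      refine Finset.sum_congr rfl fun d hd => ?_
      rw [Polynomial.eval_mul, Polynomial.eval_C, Polynomial.eval_prod,
        ← Finset.mul_prod_erase C _ hd]
      simp only [Polynomial.eval_add, Polynomial.eval_X, Polynomial.eval_C]
      have := hne s hs d hd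
      field_simp
    rw [h1, h s hs, mul_zero]
  have h2 : P.eval (- y c) = κ c * ∏ d ∈ C.erase c, (- y c + y d) := by
    rw [hP, Polynomial.eval_finsetSum, Finset.sum_eq_single c]
    · rw [Polynomial.eval_mul, Polynomial.eval_C, Polynomial.eval_prod]
      simp
    · intro d hd hdc
      rw [Polynomial.eval_mul, Polynomial.eval_prod]
      have : c ∈ C.erase d := Finset.mem_erase.2 ⟨fun h0 => hdc h0.symm, hc⟩
      rw [Finset.prod_eq_zero this (by simp), mul_zero]
    · intro h0
      exact absurd hc h0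
  rw [hzero, Polynomial.eval_zero] at h2
  have h3 : ∏ d ∈ C.erase c, (- y c + y d) ≠ 0 := by
    rw [Finset.prod_ne_zero_iff]
    intro d hd h0
    obtain ⟨hdc, hd⟩ := Finset.mem_erase.1 hd
    exact hdc (hy hd hc (neg_add_eq_zero.1 h0).symm)
  exact (mul_eq_zero.1 h2.symm).resolve_right h3

end Pool.Agent.W5h11.NGB
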