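import Pool.Agent.W5h11.NGB.Core

/-!
# Large bicliques in norm graphs: norm equations
-/

set_option autoImplicit false

namespace Pool.Agent.W5h11.NGB

open Finset Polynomial

variable {K : Type*} [Field K]

theorem prod_iter_add (φ : K →+* K) (A : Finset ℕ) (s c : K) :
    ∏ j ∈ A, φ^[j] (s + c) =
      ∑ J ∈ A.powerset, (∏ j ∈ J, φ^[j] s) * ∏ j ∈ A \ J, φ^[j] c := by
  rw [← Finset.prod_add]
  exact Finset.prod_congr rfl fun j _ => iterate_map_add φ j s c

/-- too many centres are dependent -/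
theorem dep (φ : K →+* K) (A : Finset ℕ) (C : Finset K) (h : 2 ^ A.card < C.card) :
    ∃ κ : K → K, (∃ c ∈ C, κ c ≠ 0) ∧ ∀ s, ∑ c ∈ C, κ c * ∏ j ∈ A, φ^[j] (s + c) = 0 := by
  obtain ⟨κ, h1, h2⟩ := exists_ker C A.powerset (by rwa [Finset.card_powerset])
    (fun J c => ∏ j ∈ A \ J, φ^[j] c)
  refine ⟨κ, h1, fun s => ?_⟩
  simp only [prod_iter_add, Finset.mul_sum]
  rw [Finset.sum_comm]
  refine Finset.sum_eq_zero fun J hJ => ?_
  have := h2 J hJ
  calc ∑ c ∈ C, κ c * ((∏ j ∈ J, φ^[j] s) * ∏ j ∈ A \ J, φ^[j] c)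
      = (∏ j ∈ J, φ^[j] s) * ∑ c ∈ C, κ c * ∏ j ∈ A \ J, φ^[j] c := by
        rw [Finset.mul_sum]
        exact Finset.sum_congr rfl fun c _ => by ring
    _ = 0 := by rw [this, mul_zero]

/-- enough independent centres span -/
theorem span (φ : K →+* K) (A : Finset ℕ) (C : Finset K) (h : 2 ^ A.card = C.card)
    (hind : ∀ κ : K → K, (∀ s, ∑ c ∈ C, κ c * ∏ j ∈ A, φ^[j] (s + c) = 0) → ∀ c ∈ C, κ c = 0)
    (J : Finset ℕ) (hJ : J ⊆ A) :
    ∃ κ : K → K, ∀ s, ∏ j ∈ J, φ^[j] s = ∑ c ∈ C, κ c * ∏ j ∈ A, φ^[j] (s + c) := by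
  classical
  obtain ⟨κ, h1, h2⟩ := exists_ker (Finset.insertNone C) A.powerset
    (by rw [Finset.card_powerset, Finset.card_insertNone]; omega)
    (fun (U : Finset ℕ) (i : Option K) => i.elim (if U = J then (1 : K) else 0)
      (fun c => ∏ j ∈ A \ U, φ^[j] c))
  have key : ∀ s, κ none * ∏ j ∈ J, φ^[j] s +
      ∑ c ∈ C, κ (some c) * ∏ j ∈ A, φ^[j] (s + c) = 0 := by
    intro s
    have h3 : ∑ U ∈ A.powerset, (∏ j ∈ U, φ^[j] s) *
        (∑ i ∈ Finset.insertNone C, κ i * (i.elim (if U = J then (1 : K) else 0)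
          (fun c => ∏ j ∈ A \ U, φ^[j] c))) = 0 :=
      Finset.sum_eq_zero fun U hU => by rw [h2 U hU, mul_zero]
    rw [← h3]
    have h4 : ∀ U ∈ A.powerset, (∏ j ∈ U, φ^[j] s) *
        (∑ i ∈ Finset.insertNone C, κ i * (i.elim (if U = J then (1 : K) else 0)
          (fun c => ∏ j ∈ A \ U, φ^[j] c))) =
        (if U = J then κ none * ∏ j ∈ J, φ^[j] s else 0) +
        ∑ c ∈ C, κ (some c) * ((∏ j ∈ U, φ^[j] s) * ∏ j ∈ A \ U, φ^[j] c) := by
      intro U hU
      rw [Finset.sum_insertNone, mul_add]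
      congr 1
      · by_cases hUJ : U = J
        · subst hUJ; simp; ring
        · simp [hUJ]
      · rw [Finset.mul_sum]
        refine Finset.sum_congr rfl fun c _ => ?_
        simp only [Option.elim]
        ring
    rw [Finset.sum_congr rfl h4, Finset.sum_add_distrib]
    congr 1
    · rw [Finset.sum_ite_eq' A.powerset J, if_pos (Finset.mem_powerset.2 hJ)]
    · rw [Finset.sum_comm]
      refine Finset.sum_congr rfl fun c _ => ?_
      rw [prod_iter_add, Finset.mul_sum]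
  have hn : κ none ≠ 0 := by
    intro h0
    have h3 := hind (fun c => κ (some c)) (fun s => by
      have := key s
      rwa [h0, zero_mul, zero_add] at this)
    obtain ⟨i, hi, hne⟩ := h1
    cases i with
    | none => exact hne h0
    | some c => exact hne (h3 c (by simpa using hi))
  refine ⟨fun c => -(κ (some c) / κ none), fun s => ?_⟩
  have h3 := key s
  have h4 : ∏ j ∈ J, φ^[j] s = -(∑ c ∈ C, κ (some c) * ∏ j ∈ A, φ^[j] (s + c)) / κ none := by
    rw [eq_div_iff hn]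
    linear_combination h3
  rw [h4, neg_div, Finset.sum_div, ← Finset.sum_neg_distrib]
  refine Finset.sum_congr rfl fun c _ => ?_
  ring

/-- the norm equations -/
structure Eqs (φ : K →+* K) (m : ℕ) (C S : Finset K) (a b : K → K) : Prop where
  ha : ∀ c ∈ C, a c ≠ 0
  hb : ∀ s ∈ S, b s ≠ 0
  h : ∀ s ∈ S, ∀ c ∈ C, ∏ j ∈ range m, φ^[j] (s + c) = a c * b s

theorem Eqs.mono {φ : K →+* K} {m : ℕ} {C S C' S' : Finset K} {a b : K → K}
    (H : Eqs φ m C S a b) (hC : C' ⊆ C) (hS : S' ⊆ S) : Eqs φ m C' S' a b :=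
  ⟨fun c hc => H.ha c (hC hc), fun s hs => H.hb s (hS hs),
    fun s hs c hc => H.h s (hS hs) c (hC hc)⟩

theorem Eqs.split {φ : K →+* K} {m : ℕ} {C S : Finset K} {a b : K → K}
    (H : Eqs φ m C S a b) {i : ℕ} (hi : i < m) {s c : K} (hs : s ∈ S) (hc : c ∈ C) :
    φ^[i] (s + c) * ∏ j ∈ (range m).erase i, φ^[j] (s + c) = a c * b s := by
  rw [Finset.mul_prod_erase (range m) (fun j => φ^[j] (s + c)) (Finset.mem_range.2 hi), H.h s hs c hc]

theorem Eqs.ne {φ : K →+* K} {m : ℕ} {C S : Finset K} {a b : K → K}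
    (H : Eqs φ m C S a b) {i : ℕ} (hi : i < m) {s c : K} (hs : s ∈ S) (hc : c ∈ C) :
    φ^[i] s + φ^[i] c ≠ 0 := by
  rw [← iterate_map_add]
  intro h0
  have h1 := H.split hi hs hc
  rw [h0, zero_mul] at h1
  exact mul_ne_zero (H.ha c hc) (H.hb s hs) h1.symm

theorem Eqs.div {φ : K →+* K} {m : ℕ} {C S : Finset K} {a b : K → K}
    (H : Eqs φ m C S a b) {i : ℕ} (hi : i < m) {s c : K} (hs : s ∈ S) (hc : c ∈ C) :
    ∏ j ∈ (range m).erase i, φ^[j] (s + c) = b s * (a c / (φ^[i] s + φ^[i] c)) := by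
  have h1 := H.split hi hs hc
  have h2 := H.ne hi hs hc
  rw [← iterate_map_add] at h2 ⊢
  field_simp
  linear_combination h1

theorem iter_injOn (φ : K →+* K) (i : ℕ) (C : Finset K) : Set.InjOn (φ^[i]) C :=
  (φ.injective.iterate i).injOn

/-- the products over all slots but one are independent -/
theorem Eqs.indep {φ : K →+* K} {m : ℕ} {C S : Finset K} {a b : K → K}
    (H : Eqs φ m C S a b) {i : ℕ} (hi : i < m) (hcard : C.card ≤ S.card) (κ : K → K)
    (h : ∀ s, ∑ c ∈ C, κ c * ∏ j ∈ (range m).erase i, φ^[j] (s + c) = 0) :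
    ∀ c ∈ C, κ c = 0 := by
  have h1 := cauchy_indep (κ := fun c => κ c * a c) (iter_injOn φ i C) (iter_injOn φ i S) hcard
    (fun s hs c hc => H.ne hi hs hc) (by
      intro s hs
      have h2 := h s
      have h3 : ∑ c ∈ C, κ c * ∏ j ∈ (range m).erase i, φ^[j] (s + c) =
          b s * ∑ c ∈ C, κ c * a c / (φ^[i] s + φ^[i] c) := by
        rw [Finset.mul_sum]
        refine Finset.sum_congr rfl fun c hc => ?_
        rw [H.div hi hs hc]
        ring
      rw [h3] at h2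
      exact (mul_eq_zero.1 h2).resolve_left (H.hb s hs))
  intro c hc
  exact (mul_eq_zero.1 (h1 c hc)).resolve_right (H.ha c hc)

/-- the balanced case -/
theorem Eqs.balanced {φ : K →+* K} {m : ℕ} {C S : Finset K} {a b : K → K}
    (H : Eqs φ m C S a b) (hm : 0 < m) (hC : 2 ^ (m - 1) < C.card) (hS : 2 ^ (m - 1) < S.card) :
    False := by
  obtain ⟨C', hC', hcard⟩ := Finset.exists_subset_card_eq (show 2 ^ (m - 1) + 1 ≤ C.card from hC)
  have H' := H.mono hC' (Finset.Subset.refl S)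
  have hA : ((range m).erase 0).card = m - 1 := by
    rw [Finset.card_erase_of_mem (Finset.mem_range.2 hm), Finset.card_range]
  obtain ⟨κ, ⟨c, hc, hne⟩, h1⟩ := dep φ ((range m).erase 0) C' (by rw [hA, hcard]; omega)
  exact hne (H'.indep hm (by rw [hcard]; exact hS) κ h1 c hc)

end Pool.Agent.W5h11.NGB
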