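import Pool.Agent.W5h11.NGB.Norm

/-!
# Large bicliques in norm graphs: the unbalanced case
-/

set_option autoImplicit false

namespace Pool.Agent.W5h11.NGB

open Finset Polynomial

variable {K : Type*} [Field K]

/-- monomials without slot `0` -/
theorem Eqs.mono0 {φ : K →+* K} {m : ℕ} {C S : Finset K} {a b : K → K}
    (H : Eqs φ m C S a b) (hm : 0 < m) (hC : 2 ^ (m - 1) = C.card) (hS : C.card ≤ S.card)
    (J : Finset ℕ) (hJ : J ⊆ (range m).erase 0) :
    ∃ g : K[X], g.natDegree ≤ C.card - 1 ∧ ∀ s ∈ S,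
      (∏ j ∈ J, φ^[j] s) * ∏ d ∈ C, (s + d) = b s * g.eval s := by
  classical
  have hA : ((range m).erase 0).card = m - 1 := by
    rw [Finset.card_erase_of_mem (Finset.mem_range.2 hm), Finset.card_range]
  obtain ⟨κ, hκ⟩ := span φ ((range m).erase 0) C (by rw [hA, hC]) (H.indep hm hS) J hJ
  refine ⟨∑ c ∈ C, Polynomial.C (κ c * a c) * ∏ d ∈ C.erase c, (X + Polynomial.C d), ?_, ?_⟩
  · refine Polynomial.natDegree_sum_le_of_forall_le _ _ fun c hc => ?_
    refine (Polynomial.natDegree_C_mul_le _ _).trans ?_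
    refine (Polynomial.natDegree_prod_le _ _).trans ?_
    simp [Finset.card_erase_of_mem hc]
  · intro s hs
    rw [hκ s, Polynomial.eval_finsetSum, Finset.sum_mul, Finset.mul_sum]
    refine Finset.sum_congr rfl fun c hc => ?_
    have h1 := H.div hm hs hc
    have h2 := H.ne hm hs hc
    simp only [Function.iterate_zero, id_eq] at h1 h2
    rw [h1, Polynomial.eval_mul, Polynomial.eval_C, Polynomial.eval_prod,
      ← Finset.mul_prod_erase C _ hc]
    simp only [Polynomial.eval_add, Polynomial.eval_X, Polynomial.eval_C]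
    field_simp

/-- all monomials -/
theorem Eqs.monoAll {φ : K →+* K} {m : ℕ} {C S : Finset K} {a b : K → K}
    (H : Eqs φ m C S a b) (hm : 0 < m) (hC : 2 ^ (m - 1) = C.card) (hS : C.card ≤ S.card)
    (J : Finset ℕ) (hJ : J ⊆ range m) :
    ∃ g : K[X], g.natDegree ≤ C.card ∧ ∀ s ∈ S,
      (∏ j ∈ J, φ^[j] s) * ∏ d ∈ C, (s + d) = b s * g.eval s := by
  classical
  by_cases h0 : 0 ∈ J
  · obtain ⟨g, hg, h1⟩ := H.mono0 hm hC hS (J.erase 0) (Finset.erase_subset_erase 0 hJ)
    have hpos : 0 < C.card := by rw [← hC]; positivity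
    refine ⟨X * g, ?_, fun s hs => ?_⟩
    · refine Polynomial.natDegree_mul_le.trans ?_
      have := Polynomial.natDegree_X_le (R := K)
      omega
    · rw [← Finset.mul_prod_erase J _ h0, Polynomial.eval_mul, Polynomial.eval_X]
      simp only [Function.iterate_zero, id_eq]
      linear_combination s * h1 s hs
  · obtain ⟨g, hg, h1⟩ := H.mono0 hm hC hS J (fun j hj => Finset.mem_erase.2
      ⟨fun h => h0 (h ▸ hj), hJ hj⟩)
    exact ⟨g, hg.trans (Nat.sub_le _ _), h1⟩

/-- the functions `1 / (φ s + φ c)` as rational functions of `s` -/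
theorem Eqs.rat {φ : K →+* K} {m : ℕ} {C S : Finset K} {a b : K → K}
    (H : Eqs φ m C S a b) (hm : 2 ≤ m) (hC : 2 ^ (m - 1) = C.card) (hS : C.card ≤ S.card) :
    ∃ g : K → K[X], ∀ c ∈ C, (g c).natDegree ≤ C.card ∧ ∀ s ∈ S,
      a c * ∏ d ∈ C, (s + d) = (φ s + φ c) * (g c).eval s := by
  classical
  have h0 : ∀ J : Finset ℕ, ∃ g : K[X], g.natDegree ≤ C.card ∧ (J ⊆ range m → ∀ s ∈ S,
      (∏ j ∈ J, φ^[j] s) * ∏ d ∈ C, (s + d) = b s * g.eval s) := by
    intro J
    by_cases hJ : J ⊆ range m
    · obtain ⟨g, h1, h2⟩ := H.monoAll (by omega) hC hS J hJ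
      exact ⟨g, h1, fun _ => h2⟩
    · exact ⟨0, by simp, fun h => absurd h hJ⟩
  choose G hG1 hG2 using h0
  set A := (range m).erase 1 with hA
  refine ⟨fun c => ∑ J ∈ A.powerset, Polynomial.C (∏ j ∈ A \ J, φ^[j] c) * G J,
    fun c hc => ⟨?_, fun s hs => ?_⟩⟩
  · refine Polynomial.natDegree_sum_le_of_forall_le _ _ fun J _ => ?_
    exact (Polynomial.natDegree_C_mul_le _ _).trans (hG1 J)
  · have h1 : (∏ j ∈ A, φ^[j] (s + c)) * ∏ d ∈ C, (s + d) =
        b s * (∑ J ∈ A.powerset, Polynomial.C (∏ j ∈ A \ J, φ^[j] c) * G J).eval s := by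
      rw [prod_iter_add, Finset.sum_mul, Polynomial.eval_finsetSum, Finset.mul_sum]
      refine Finset.sum_congr rfl fun J hJ => ?_
      have h2 := hG2 J ((Finset.mem_powerset.1 hJ).trans (Finset.erase_subset _ _)) s hs
      rw [Polynomial.eval_mul, Polynomial.eval_C]
      linear_combination (∏ j ∈ A \ J, φ^[j] c) * h2
    have h3 := H.split (i := 1) (by omega) hs hc
    rw [Function.iterate_one, ← hA, map_add] at h3
    have h4 := H.hb s hs
    apply mul_left_cancel₀ h4
    linear_combination (φ s + φ c) * h1 - (∏ d ∈ C, (s + d)) * h3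

theorem cross_of_rel {x y : Fin 4 → K} (hx : Function.Injective x) (hy : Function.Injective y)
    {α β α' β' : K} (hne : α ≠ 0 ∨ β ≠ 0)
    (h : ∀ i, y i * (α * x i + β) = α' * x i + β') :
    (y 0 - y 1) * (y 2 - y 3) * ((x 0 - x 2) * (x 1 - x 3)) =
      (y 0 - y 2) * (y 1 - y 3) * ((x 0 - x 1) * (x 2 - x 3)) := by
  -- the denominators do not vanish
  have hden : ∀ i, α * x i + β ≠ 0 := by
    intro i h0
    have h1 := h i
    rw [h0, mul_zero] at h1
    -- the two linear forms are proportional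
    have h2 : α' * β = α * β' := by
      by_cases hα : α = 0
      · have : β = 0 := by rw [hα, zero_mul, zero_add] at h0; exact h0
        rw [this, hα]; ring
      · have h3 : x i = -β / α := by field_simp; linear_combination h0
        rw [h3] at h1
        field_simp at h1
        linear_combination h1
    -- hence `y` is constant off `i`
    have h4 : ∀ j k, j ≠ i → k ≠ i → y j = y k := by
      intro j k hj hk
      have hα : α ≠ 0 := by
        intro hα
        rcases hne with h5 | h5
        · exact h5 hα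
        · rw [hα, zero_mul, zero_add] at h0
          exact h5 h0
      have h5 : ∀ l, l ≠ i → α * x l + β ≠ 0 := by
        intro l hl h6
        apply hl
        apply hx
        have : α * (x l - x i) = 0 := by linear_combination h6 - h0
        exact sub_eq_zero.1 ((mul_eq_zero.1 this).resolve_left hα)
      have h6 : ∀ l, l ≠ i → y l = α' / α := by
        intro l hl
        rw [eq_div_iff hα]
        apply mul_right_cancel₀ (h5 l hl)
        linear_combination α * h l - h2
      rw [h6 j hj, h6 k hk]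
    fin_cases i
    · exact absurd (hy (h4 1 2 (by decide) (by decide))) (by decide)
    · exact absurd (hy (h4 0 2 (by decide) (by decide))) (by decide)
    · exact absurd (hy (h4 0 1 (by decide) (by decide))) (by decide)
    · exact absurd (hy (h4 0 1 (by decide) (by decide))) (by decide)
  have e : ∀ i j, (y i - y j) * ((α * x i + β) * (α * x j + β)) =
      (α' * β - α * β') * (x i - x j) := by
    intro i j
    linear_combination (α * x j + β) * h i - (α * x i + β) * h j
  have h0 : (α * x 0 + β) * (α * x 1 + β) * ((α * x 2 + β) * (α * x 3 + β)) ≠ 0 :=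
    mul_ne_zero (mul_ne_zero (hden 0) (hden 1)) (mul_ne_zero (hden 2) (hden 3))
  apply mul_right_cancel₀ h0
  calc (y 0 - y 1) * (y 2 - y 3) * ((x 0 - x 2) * (x 1 - x 3)) *
        ((α * x 0 + β) * (α * x 1 + β) * ((α * x 2 + β) * (α * x 3 + β)))
      = ((y 0 - y 1) * ((α * x 0 + β) * (α * x 1 + β))) *
        ((y 2 - y 3) * ((α * x 2 + β) * (α * x 3 + β))) * ((x 0 - x 2) * (x 1 - x 3)) := by ring
    _ = ((y 0 - y 2) * ((α * x 0 + β) * (α * x 2 + β))) *
        ((y 1 - y 3) * ((α * x 1 + β) * (α * x 3 + β))) * ((x 0 - x 1) * (x 2 - x 3)) := by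
        rw [e 0 1, e 2 3, e 0 2, e 1 3]; ring
    _ = _ := by ring

/-- the cross ratios are fixed by `φ` -/
theorem Eqs.cross {φ : K →+* K} {m : ℕ} {C S : Finset K} {a b : K → K}
    (H : Eqs φ m C S a b) (hm : 2 ≤ m) (hC : 2 ^ (m - 1) = C.card) (hS : C.card + 3 ≤ S.card)
    (x : Fin 4 → K) (hx : Function.Injective x) (hxS : ∀ i, x i ∈ S) :
    (φ (x 0) - φ (x 1)) * (φ (x 2) - φ (x 3)) * ((x 0 - x 2) * (x 1 - x 3)) =
      (φ (x 0) - φ (x 2)) * (φ (x 1) - φ (x 3)) * ((x 0 - x 1) * (x 2 - x 3)) := by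
  classical
  have hpos : 0 < C.card := by rw [← hC]; positivity
  obtain ⟨g, hg⟩ := H.rat hm hC (by omega)
  -- the other points
  have hQ : (Finset.univ.image x).card = 4 := by
    rw [Finset.card_image_of_injective _ hx, Finset.card_univ, Fintype.card_fin]
  have hQS : Finset.univ.image x ⊆ S := by
    intro z hz
    obtain ⟨i, _, rfl⟩ := Finset.mem_image.1 hz
    exact hxS i
  obtain ⟨J, hJ, hJc⟩ := Finset.exists_subset_card_eq
    (show C.card - 1 ≤ (S \ Finset.univ.image x).card by
      rw [Finset.card_sdiff_of_subset hQS, hQ]; omega)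
  have hJS : J ⊆ S := hJ.trans Finset.sdiff_subset
  have hJx : ∀ i, x i ∉ J := fun i hi =>
    (Finset.mem_sdiff.1 (hJ hi)).2 (Finset.mem_image_of_mem x (Finset.mem_univ i))
  -- a combination vanishing on `J`
  obtain ⟨κ, ⟨c₀, hc₀, hκ⟩, h1⟩ := exists_ker C J (by rw [hJc]; omega) (fun s c => (g c).eval s)
  set p : K[X] := ∑ c ∈ C, Polynomial.C (κ c) * g c with hp
  set q : K[X] := ∑ c ∈ C, Polynomial.C (κ c) *
    (Polynomial.C (a c) * (∏ d ∈ C, (X + Polynomial.C d)) - Polynomial.C (φ c) * g c) with hq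
  have hpe : ∀ s, p.eval s = ∑ c ∈ C, κ c * (g c).eval s := by
    intro s
    rw [hp, Polynomial.eval_finsetSum]
    simp
  have hpq : ∀ s ∈ S, φ s * p.eval s = q.eval s := by
    intro s hs
    rw [hpe, hq, Polynomial.eval_finsetSum, Finset.mul_sum]
    refine Finset.sum_congr rfl fun c hc => ?_
    have h2 := (hg c hc).2 s hs
    simp only [Polynomial.eval_mul, Polynomial.eval_sub, Polynomial.eval_C, Polynomial.eval_prod,
      Polynomial.eval_add, Polynomial.eval_X]
    linear_combination (-κ c) * h2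
  have hpd : p.natDegree ≤ C.card :=
    Polynomial.natDegree_sum_le_of_forall_le _ _ fun c hc =>
      (Polynomial.natDegree_C_mul_le _ _).trans (hg c hc).1
  have hqd : q.natDegree ≤ C.card := by
    refine Polynomial.natDegree_sum_le_of_forall_le _ _ fun c hc => ?_
    refine (Polynomial.natDegree_C_mul_le _ _).trans ?_
    refine (Polynomial.natDegree_sub_le _ _).trans (max_le ?_ ?_)
    · refine (Polynomial.natDegree_C_mul_le _ _).trans ?_
      refine (Polynomial.natDegree_prod_le _ _).trans ?_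
      simp
    · exact (Polynomial.natDegree_C_mul_le _ _).trans (hg c hc).1
  have hp0 : p ≠ 0 := by
    intro h0
    have h2 := cauchy_indep (κ := fun c => κ c * a c) (C := C) (S := S) (y := φ) (x := φ)
      φ.injective.injOn φ.injective.injOn (by omega)
      (fun s hs c hc => by simpa using H.ne (i := 1) (by omega) hs hc) (by
        intro s hs
        have h3 : (∏ d ∈ C, (s + d)) ≠ 0 := by
          rw [Finset.prod_ne_zero_iff]
          intro d hd
          simpa using H.ne (i := 0) (by omega) hs hd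
        apply mul_left_cancel₀ h3
        rw [mul_zero, ← Polynomial.eval_zero (x := s), ← h0, hpe, Finset.mul_sum]
        refine Finset.sum_congr rfl fun c hc => ?_
        have h4 := (hg c hc).2 s hs
        have h5 : φ s + φ c ≠ 0 := by simpa using H.ne (i := 1) (by omega) hs hc
        field_simp
        linear_combination κ c * h4)
    exact hκ ((mul_eq_zero.1 (h2 c₀ hc₀)).resolve_right (H.ha c₀ hc₀))
  have hpJ : ∀ s ∈ J, p.eval s = 0 := fun s hs => by rw [hpe]; exact h1 s hs
  have hqJ : ∀ s ∈ J, q.eval s = 0 := fun s hs => by rw [← hpq s (hJS hs), hpJ s hs, mul_zero]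
  -- divide by the product over `J`
  have hdvd : ∀ r : K[X], (∀ s ∈ J, r.eval s = 0) → ∏ s ∈ J, (X - Polynomial.C s) ∣ r := by
    intro r hr
    apply Finset.prod_dvd_of_coprime
    · intro s _ s' _ hne
      exact Polynomial.pairwise_coprime_X_sub_C (s := fun s : K => s) Function.injective_id hne
    · intro s hs
      exact Polynomial.dvd_iff_isRoot.2 (hr s hs)
  obtain ⟨p', hp'⟩ := hdvd p hpJ
  obtain ⟨q', hq'⟩ := hdvd q hqJ
  have hPJ : (∏ s ∈ J, (X - Polynomial.C s)).natDegree = C.card - 1 := by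
    rw [Polynomial.natDegree_prod_of_monic _ _ fun s _ => Polynomial.monic_X_sub_C s]
    simp [hJc]
  have hPm : (∏ s ∈ J, (X - Polynomial.C s)).Monic :=
    Polynomial.monic_prod_of_monic _ _ fun s _ => Polynomial.monic_X_sub_C s
  have hp'0 : p' ≠ 0 := by
    rintro rfl
    exact hp0 (by rw [hp', mul_zero])
  have hp'd : p'.natDegree ≤ 1 := by
    have h2 : p.natDegree = (C.card - 1) + p'.natDegree := by
      rw [hp', hPm.natDegree_mul' hp'0, hPJ]
    omega
  have hq'd : q'.natDegree ≤ 1 := by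
    by_cases h0 : q' = 0
    · rw [h0]; simp
    · have h2 : q.natDegree = (C.card - 1) + q'.natDegree := by
        rw [hq', hPm.natDegree_mul' h0, hPJ]
      omega
  have hev : ∀ (r : K[X]), r.natDegree ≤ 1 → ∀ z, r.eval z = r.coeff 1 * z + r.coeff 0 := by
    intro r hr z
    conv_lhs => rw [Polynomial.eq_X_add_C_of_natDegree_le_one hr]
    simp
  refine cross_of_rel (y := fun i => φ (x i)) hx (φ.injective.comp hx) (α := p'.coeff 1)
    (β := p'.coeff 0) (α' := q'.coeff 1) (β' := q'.coeff 0) ?_ ?_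
  · by_contra hcon
    push Not at hcon
    apply hp'0
    rw [Polynomial.eq_X_add_C_of_natDegree_le_one hp'd, hcon.1, hcon.2]
    simp
  · intro i
    rw [← hev p' hp'd, ← hev q' hq'd]
    have h2 := hpq (x i) (hxS i)
    rw [hp', hq', Polynomial.eval_mul, Polynomial.eval_mul] at h2
    have h3 : (∏ s ∈ J, (X - Polynomial.C s)).eval (x i) ≠ 0 := by
      rw [Polynomial.eval_prod, Finset.prod_ne_zero_iff]
      intro s hs
      rw [Polynomial.eval_sub, Polynomial.eval_X, Polynomial.eval_C, sub_ne_zero]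
      rintro rfl
      exact hJx i hs
    apply mul_left_cancel₀ h3
    linear_combination h2

end Pool.Agent.W5h11.NGB
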